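import Pool.Agent.helper29.PQ.Fin

/-!
# MP_56fc12_nt: almost all integers are `p + q - π(q)` with odd primes `p, q`

For every `ε > 0` there are `c > 0` and `X₀` such that for every `X ≥ X₀` all but at most `ε X` of
the integers `n ∈ [1, X]` have at least `c n / (log n)²` representations `n = p + q - π(q)` with odd
primes `p, q ≤ n`.  In particular the set of the `n` that are not of this form has natural
density `0`.

Proof.  Nothing is known about the joint distribution of `q mod d` and `π(q) mod d`, and it is not
needed: (1) for `n ≡ n₀ mod m`, `m` the product of the small primes, the primes `q` with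
`π(q) ≡ -n₀ mod m` have `n - (q - π(q)) ≡ -q mod m`, a unit; (2) the upper bound sieve for prime
pairs shows that a residue class mod `d ≤ (log Y)^50` contains at most `O(d^(-1/6)) π(Y)` of the
numbers `q - π(q)`, `q ≤ Y`; (3) Jensen's inequality with an exponent proportional to `log m`
bounds the contribution of the moduli composed of primes not dividing `m`; (4) the circle method.
-/

namespace Pool.Agent.Results.MP_56fc12_nt.AlmostAll

open Finset

theorem result : ∀ ε : ℝ, 0 < ε → ∃ c : ℝ, 0 < c ∧ ∃ X₀ : ℕ, ∀ X : ℕ, X₀ ≤ X →
    (#{n ∈ Icc 1 X |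
        (#{x ∈ range (n + 1) ×ˢ range (n + 1) | x.1.Prime ∧ x.1 ≠ 2 ∧ x.2.Prime ∧ x.2 ≠ 2 ∧
            n + Nat.primeCounting x.2 = x.1 + x.2} : ℝ)
          < c * n / Real.log n ^ 2} : ℝ) ≤ ε * X :=
  Pool.Agent.helper29.PQ.almost_all

end Pool.Agent.Results.MP_56fc12_nt.AlmostAll
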